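import Pool.Agent.MP_3ce0a0_al.H79.SpecT

/-! Components of fixed subgraphs and the equivariant homology. -/

namespace Pool.Agent.MP_3ce0a0_al.H62

open Pool.Agent.MP_3ce0a0_al.H79

section
variable {E V Ed V' Ed' : Type} [Group E] [MulAction E V] [MulAction E Ed] {Fs : Subgroup E}
  {o t a : Ed → V} {o' t' a' : Ed' → V'} {pv : V → V'} {pe : Ed → Ed'}

/-- An edge whose class and one end are fixed is fixed. -/
lemma fix_edge (hc : Cocpt Fs o t) (hq : Quo Fs o t o' t' pv pe)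
    (ha : ∀ (g : E) e, a (g • e) = g • a e) {k : E} {e : Ed} (h1 : pe (k • e) = pe e)
    (h2 : k • a e = a e) : k • e = e := by
  obtain ⟨f, hf, h3⟩ := (hq.2.2.2.1 _ _).1 h1
  have h4 : f = 1 := hc.1 f hf (a e) (by rw [← h2, ← ha, ← ha, h3, ha, h2])
  rwa [h4, one_smul] at h3

lemma lift_edge (hq : Quo Fs o t o' t' pv pe) (ha : ∀ (g : E) e, a (g • e) = g • a e)
    (ha' : ∀ e, a' (pe e) = pv (a e)) {e' : Ed'} {w : V} (h : a' e' = pv w) :
    ∃ e, pe e = e' ∧ a e = w := by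
  obtain ⟨e, rfl⟩ := hq.2.1 e'
  obtain ⟨f, hf, rfl⟩ := (hq.2.2.1 _ _).1 ((ha' e).symm.trans h)
  exact ⟨f • e, ((hq.2.2.2.1 _ _).2 ⟨f, hf, rfl⟩).symm, ha f e⟩

lemma comm_of (hn : Fs.Normal) (hc : Cocpt Fs o t) {f k : E} (hf : f ∈ Fs) {w : V}
    (h1 : k • w = w) (h2 : k • f • w = f • w) : Commute f k := by
  have h := hc.1 _ (mul_mem (inv_mem hf) (hn.conj_mem f hf k)) w (by
    rw [mul_smul, mul_smul, mul_smul, inv_smul_eq_iff.2 h1.symm, h2, inv_smul_smul])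
  rw [inv_mul_eq_one, eq_mul_inv_iff_mul_eq] at h
  exact h

lemma cyc_sum [Fintype V'] [Fintype Ed'] {c : Ed' → ℂ} (h : Cyc o' t' c) (φ : V' → Ed' → ℂ) :
    ∑ e, c e • φ (t' e) = ∑ e, c e • φ (o' e) := by
  classical
  have key : ∀ b : Ed' → V', ∑ e, c e • φ (b e) =
      ∑ v, (∑ e, if b e = v then c e else 0) • φ v := fun b => by
    simp only [Finset.sum_smul, ite_smul, zero_smul]
    rw [Finset.sum_comm]
    simp
  rw [key, key]
  refine Finset.sum_congr rfl fun v _ => ?_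
  congr 1
  exact h v

end

theorem scomp (h : SFix) : SComp := by
  intro E G _ _ m ι q V Ed V' Ed' _ _ _ _ _ _ o t side o' t' pv pe p j hn ht hc hq e1 e2 hh K v hv
  classical
  have lift : ∀ (a : Ed → V) (a' : Ed' → V'), (∀ (g : E) e, a (g • e) = g • a e) →
      (∀ e, a' (pe e) = pv (a e)) → ∀ e' w, (∀ k ∈ K, q k • e' = e') → (∀ k ∈ K, k • w = w) →
      a' e' = pv w → ∃ e, pe e = e' ∧ a e = w ∧ ∀ k ∈ K, k • e = e := by
    intro a a' ha ha' e' w h1 h2 h3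
    obtain ⟨e, rfl, rfl⟩ := lift_edge hq ha ha' h3
    exact ⟨e, rfl, rfl, fun k hk => fix_edge hc hq ha ((e2 k e).trans (h1 k hk)) (h2 k hk)⟩
  have one : ∀ w', Lnk o' t' (fun e => ∀ k ∈ K, q k • e = e) (pv v) w' →
      ∃ w, pv w = w' ∧ ∀ k ∈ K, k • w = w := fun w' hw => by
    induction hw with
    | refl => exact ⟨v, rfl, hv⟩
    | tail _ h2 ih =>
      obtain ⟨w, rfl, hw⟩ := ih
      obtain ⟨e', h3, ⟨h4, rfl⟩ | ⟨rfl, h4⟩⟩ := h2
      · obtain ⟨e, rfl, -, h5⟩ := lift o o' ht.1 hq.2.2.2.2.1 e' w h3 hw h4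
        exact ⟨t e, (hq.2.2.2.2.2 e).symm, fun k hk => by rw [← ht.2.1, h5 k hk]⟩
      · obtain ⟨e, rfl, -, h5⟩ := lift t t' ht.2.1 hq.2.2.2.2.2 e' w h3 hw h4
        exact ⟨o e, (hq.2.2.2.2.1 e).symm, fun k hk => by rw [← ht.1, h5 k hk]⟩
  refine ⟨one, fun y => ⟨fun hy => ?_, fun hy => ?_⟩⟩
  · have : Nonempty V := ⟨v⟩
    choose! s s1 s2 using one
    have key : ∀ e', ∃ x, (∀ k ∈ K, Commute (ι x) k) ∧ j y e' • (Pi.single e' 1 : Ed' → ℂ) =
        j y e' • (j (ab x) + p (s (t' e')) - p (s (o' e'))) := fun e' => by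
      by_cases h0 : j y e' = 0
      · exact ⟨1, fun k _ => by rw [map_one]; exact Commute.one_left k, by simp [h0]⟩
      obtain ⟨h1, h2⟩ := hy e' h0
      have h3 := h2.tail ⟨e', h1, Or.inl ⟨rfl, rfl⟩⟩
      obtain ⟨e, rfl, h4, h5⟩ := lift o o' ht.1 hq.2.2.2.2.1 e' _ h1 (s2 _ h2) (s1 _ h2).symm
      obtain ⟨_, ⟨x, rfl⟩, h6⟩ := (hq.2.2.1 _ _).1 ((s1 _ h3).trans (hq.2.2.2.2.2 e))
      refine ⟨x, fun k hk => comm_of hn hc ⟨x, rfl⟩ (s2 _ h3 k hk)
        (by rw [h6, ← ht.2.1, h5 k hk]), ?_⟩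
      rw [hh.2.1 x (s (t' (pe e))), sub_add_cancel, h6, ← h4]
      convert congrArg (j y (pe e) • ·) (hh.1 e).symm
    choose x x1 x2 using key
    have e : y = ∑ e', j y e' • ab (x e') := hh.2.2.1 (by
      have h1 := Finset.sum_congr rfl fun e' (_ : e' ∈ Finset.univ) => x2 e'
      simp only [smul_sub, smul_add, Finset.sum_sub_distrib, Finset.sum_add_distrib] at h1
      rw [cyc_sum ((hh.2.2.2 _).1 ⟨y, rfl⟩) fun w => p (s w), add_sub_cancel_right] at h1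
      simp only [map_sum, map_smul]
      rw [← h1]
      exact pi_eq_sum_univ' _)
    rw [e]
    exact Submodule.sum_mem _ fun e' _ =>
      Submodule.smul_mem _ _ (Submodule.subset_span ⟨_, rfl, x1 e'⟩)
  · intro e' h0
    refine by_contra fun hb => h0 ?_
    clear h0
    induction hy using Submodule.span_induction with
    | zero => simp
    | add a b _ _ ha hb => simp [ha, hb]
    | smul a b _ hb => simp [hb]
    | mem _ hx =>
      obtain ⟨x, rfl, hx⟩ := hx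
      have key : ∀ u, Lnk o t (fun e => ∀ k ∈ K, k • e = e) v u →
          Lnk o' t' (fun e => ∀ k ∈ K, q k • e = e) (pv v) (pv u) ∧ p u e' = p v e' := by
        intro u hu
        induction hu with
        | refl => exact ⟨.refl, rfl⟩
        | @tail u w _ h2 ih =>
          obtain ⟨e, h3, h4⟩ := h2
          have h5 : ∀ k ∈ K, q k • pe e = pe e := fun k hk => by rw [← e2, h3 k hk]
          have h6 := ih.1.tail (c := pv w) ⟨pe e, h5, by
            rw [hq.2.2.2.2.1, hq.2.2.2.2.2]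
            exact h4.imp (fun h => by rw [h.1, h.2]; exact ⟨rfl, rfl⟩)
              fun h => by rw [h.1, h.2]; exact ⟨rfl, rfl⟩⟩
          have h7 : e' ≠ pe e := by
            rintro rfl
            refine hb ⟨h5, ?_⟩
            rw [hq.2.2.2.2.1]
            rcases h4 with ⟨rfl, -⟩ | ⟨rfl, -⟩
            exacts [ih.1, h6]
          have h8 := congrFun (hh.1 e) e'
          rw [Pi.single_eq_of_ne h7, Pi.sub_apply, sub_eq_zero] at h8
          refine ⟨h6, Eq.trans ?_ ih.2⟩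
          rcases h4 with ⟨rfl, rfl⟩ | ⟨rfl, rfl⟩
          exacts [h8, h8.symm]
      rw [hh.2.1 x v, Pi.sub_apply, sub_eq_zero]
      exact (key _ ((h E V Ed o t side ht).2 K v _ hv fun k hk => by
        rw [← mul_smul, ← (hx k hk).eq, mul_smul, hv k hk])).2

theorem sra : SRA := by
  intro G _ _ m π ψ ι V Ed V' Ed' _ _ _ _ _ _ o t side o' t' pv pe p j hπ
    ⟨hι, hi, ht, hc, hq, e1, e2, hh, c1, c2⟩
  classical
  have up : ∀ g : G, ∃ k : PB ψ, k.1.1 = g := fun g => by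
    obtain ⟨α, hα⟩ := QuotientGroup.mk_surjective (ψ g)
    exact ⟨⟨(g, α), hα.symm⟩, rfl⟩
  have cj : ∀ (k : PB ψ) x, ι (k.1.2 x) * k = k * ι x := fun k x => Subtype.ext (by
    rw [Subgroup.coe_mul, Subgroup.coe_mul, hι, hι]
    refine Prod.ext (by simp) ?_
    ext y
    simp)
  have hn : ι.range.Normal := ⟨by
    rintro _ ⟨x, rfl⟩ k
    exact ⟨k.1.2 x, eq_mul_inv_iff_mul_eq.2 (cj k x)⟩⟩
  have eq : ∀ (a : Ed → V) (a' : Ed' → V'), (∀ (g : PB ψ) e, a (g • e) = g • a e) →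
      (∀ e, a' (pe e) = pv (a e)) → ∀ (g : G) e, a' (g • e) = g • a' e := by
    intro a a' ha ha' g e
    obtain ⟨k, rfl⟩ := up g
    obtain ⟨e, rfl⟩ := hq.2.1 e
    rw [← e2, ha', ha', ha, e1]
  have eo := eq o o' ht.1 hq.2.2.2.2.1
  have et := eq t t' ht.2.1 hq.2.2.2.2.2
  obtain ⟨v⟩ := ht.2.2.1
  refine ⟨eo, et, ⟨pv v⟩, c1, c2, hh.2.2.1, hh.2.2.2, fun g y e => ?_, fun g hg => ?_⟩
  · obtain ⟨k, rfl⟩ := up g
    have key : ∀ u, p (k • u) (k.1.1 • e) - p u e = p (k • v) (k.1.1 • e) - p v e := fun u => by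
      induction ht.2.2.2.1 v u with
      | refl => rfl
      | tail _ h2 ih =>
        obtain ⟨d, -, h4⟩ := h2
        have h5 := congrFun (hh.1 d) e
        have h6 := congrFun (hh.1 (k • d)) (k.1.1 • e)
        simp only [ht.1, ht.2.1, e2, Pi.sub_apply, Pi.single_apply, smul_left_cancel_iff] at h5 h6
        rcases h4 with ⟨rfl, rfl⟩ | ⟨rfl, rfl⟩
        · linear_combination ih + h6 - h5
        · linear_combination ih - h6 + h5
    have h1 : ∀ x, j (π (ψ k.1.1) (ab x)) (k.1.1 • e) = j (ab x) e := fun x => by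
      rw [show ψ k.1.1 = QuotientGroup.mk k.1.2 from k.2, hπ, hh.2.1 _ (k • v), hh.2.1 _ v,
        ← mul_smul, cj, mul_smul, Pi.sub_apply, Pi.sub_apply]
      linear_combination key (ι x • v)
    have h2 : ∀ i, ab (FreeGroup.of i : FG m) = Pi.single i 1 := fun i => by simp [ab]
    rw [pi_eq_sum_univ' y]
    simp only [map_sum, map_smul, Finset.sum_apply, Pi.smul_apply, ← h2, h1]
  · obtain ⟨k0, rfl⟩ := up g
    have h1 : pv (k0 • v) = pv v := by
      obtain ⟨e, -, -, rfl | rfl, -⟩ := hc.2.2 v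
      · rw [e1, ← hq.2.2.2.2.1, ← eo, hg]
      · rw [e1, ← hq.2.2.2.2.2, ← et, hg]
    obtain ⟨_, ⟨x, rfl⟩, h2⟩ := (hq.2.2.1 _ _).1 h1
    rw [← mul_smul] at h2
    have h3 : (ι x * k0).1.1 = k0.1.1 := by rw [Subgroup.coe_mul, hι, Prod.fst_mul, one_mul]
    rw [← h3] at hg ⊢
    generalize ι x * k0 = k at *
    have key : ∀ u, k • u = u := fun u => by
      induction ht.2.2.2.1 v u with
      | refl => exact h2
      | tail _ h4 ih =>
        obtain ⟨d, -, ⟨rfl, rfl⟩ | ⟨rfl, rfl⟩⟩ := h4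
        · rw [← ht.2.1, fix_edge hc hq ht.1 ((e2 k d).trans (hg _)) ih]
        · rw [← ht.1, fix_edge hc hq ht.2.1 ((e2 k d).trans (hg _)) ih]
    have h5 : k.1.2 = 1 := MulEquiv.ext fun y => hi (mul_right_cancel
      ((cj k y).trans (comm_of hn hc ⟨y, rfl⟩ h2 (key _)).eq.symm))
    rw [show ψ k.1.1 = QuotientGroup.mk k.1.2 from k.2, h5, QuotientGroup.mk_one]

end Pool.Agent.MP_3ce0a0_al.H62
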