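import Pool.Agent.MP_3ce0a0_al.H79.SpecN

/-! The Nielsen relations and the cage group in the outer automorphism group. -/

namespace Pool.Agent.MP_3ce0a0_al.H62

open Pool.Agent.MP_3ce0a0_al.H79 Equiv FreeGroup Sum Pointwise

namespace Inst

variable {ι : Type}

lemma aut_ext {f g : MulAut (FreeGroup ι)} (h : ∀ c, f (of c) = g (of c)) : f = g :=
  MulEquiv.toMonoidHom_injective (FreeGroup.ext_hom _ _ h)

/-- An automorphism from two mutually inverse substitutions. -/
def mk (f g : ι → FreeGroup ι) (h1 : ∀ c, lift g (f c) = of c) (h2 : ∀ c, lift f (g c) = of c) :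
    MulAut (FreeGroup ι) :=
  MonoidHom.toMulEquiv (lift f) (lift g) (FreeGroup.ext_hom _ _ (by simpa using h1))
    (FreeGroup.ext_hom _ _ (by simpa using h2))

def pm : Perm ι →* MulAut (FreeGroup ι) where
  toFun σ := freeGroupCongr σ
  map_one' := aut_ext fun c => by simp
  map_mul' σ τ := aut_ext fun c => by simp

@[simp] lemma pm_of (σ : Perm ι) (c : ι) : pm σ (of c) = of (σ c) := by simp [pm]

variable [DecidableEq ι] {a b : ι}

def ep (a : ι) : MulAut (FreeGroup ι) :=
  mk (fun c => if c = a then (of c)⁻¹ else of c) (fun c => if c = a then (of c)⁻¹ else of c)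
    (fun c => by by_cases h : c = a <;> simp [h]) fun c => by by_cases h : c = a <;> simp [h]

def rh (a b : ι) : MulAut (FreeGroup ι) := if h : a = b then 1 else
  mk (fun c => if c = a then of a * of b else of c)
    (fun c => if c = a then of a * (of b)⁻¹ else of c)
    (fun c => by by_cases k : c = a <;> simp [k, Ne.symm h])
    fun c => by by_cases k : c = a <;> simp [k, Ne.symm h]

def la (a b : ι) : MulAut (FreeGroup ι) := if h : a = b then 1 else
  mk (fun c => if c = a then of b * of a else of c)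
    (fun c => if c = a then (of b)⁻¹ * of a else of c)
    (fun c => by by_cases k : c = a <;> simp [k, Ne.symm h])
    fun c => by by_cases k : c = a <;> simp [k, Ne.symm h]

lemma ep_of (a c : ι) : ep a (of c) = if c = a then (of c)⁻¹ else of c := by simp [ep, mk]

lemma rh_of (h : a ≠ b) (c : ι) : rh a b (of c) = if c = a then of a * of b else of c := by
  simp [rh, h, mk]

lemma rh_inv (h : a ≠ b) (c : ι) :
    (rh a b).symm (of c) = if c = a then of a * (of b)⁻¹ else of c := by simp [rh, h, mk]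

lemma la_of (h : a ≠ b) (c : ι) : la a b (of c) = if c = a then of b * of a else of c := by
  simp [la, h, mk]

lemma la_inv (h : a ≠ b) (c : ι) :
    (la a b).symm (of c) = if c = a then (of b)⁻¹ * of a else of c := by simp [la, h, mk]

/-- The relations in the automorphism group. -/
def N0 (ι : Type) [DecidableEq ι] : NS ι (MulAut (FreeGroup ι)) where
  ε := ep
  π := pm
  ρ := rh
  lam := la
  ε_sq a := aut_ext fun c => by by_cases h : c = a <;> simp [ep_of, h]
  ε_comm a b := aut_ext fun c => by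
    by_cases h : c = a <;> by_cases k : c = b <;> simp_all [ep_of]
  π_ε σ a := aut_ext fun c => by by_cases h : c = a <;> simp [ep_of, h]
  π_ρ σ a b h := aut_ext fun c => by
    by_cases k : c = a <;> simp [rh_of h, rh_of (σ.injective.ne h), k]
  π_lam σ a b h := aut_ext fun c => by
    by_cases k : c = a <;> simp [la_of h, la_of (σ.injective.ne h), k]
  ε_right a b h := aut_ext fun c => by
    by_cases k : c = a <;> by_cases l : c = b <;> simp_all [ep_of, rh_of, rh_inv, h.symm]
  ε_left a b h := aut_ext fun c => by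
    by_cases k : c = a <;> simp [ep_of, rh_of h, la_inv h, h.symm, k]
  ε_other a b c h1 h2 h3 := aut_ext fun x => by
    by_cases k : x = a <;> by_cases l : x = c <;>
      simp_all [ep_of, rh_of h1, h2.symm, h3.symm]
  ρ_ρ a b c e h1 h2 h3 h4 h5 := aut_ext fun x => by
    by_cases k : x = a <;> by_cases l : x = c <;>
      simp_all [rh_of h1, rh_of h2, h3.symm, h4.symm, h5.symm]
  ρ_lam a b c e h1 h2 h4 h5 := aut_ext fun x => by
    by_cases k : x = a
    · subst k
      by_cases l : x = c
      · subst l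
        simp [rh_of h1, la_of h2, h4.symm, h5.symm, mul_assoc]
      · simp [rh_of h1, la_of h2, h5.symm, l]
    · by_cases l : x = c <;> simp_all [rh_of h1, la_of h2, h4.symm]
  lam_lam a b c e h1 h2 h3 h4 h5 := aut_ext fun x => by
    by_cases k : x = a <;> by_cases l : x = c <;>
      simp_all [la_of h1, la_of h2, h3.symm, h4.symm, h5.symm]
  conj_lam a b c h1 h2 h3 := aut_ext fun x => by
    by_cases k : x = a <;> by_cases l : x = c <;>
      simp_all [rh_of h1, la_of h2, la_inv h2, la_inv h3, h1.symm, h2.symm, h3.symm, mul_assoc]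
  conj_ρ a b c h1 h2 h3 := aut_ext fun x => by
    by_cases k : x = a <;> by_cases l : x = c <;>
      simp_all [rh_of h1, rh_of h2, rh_inv h2, rh_of h3, h1.symm, h2.symm, h3.symm, mul_assoc]
  gersten a b h := aut_ext fun x => by
    by_cases k : x = a <;> by_cases l : x = b <;>
      simp_all [rh_of h, la_of h, rh_inv h.symm, ep_of, h.symm, swap_apply_of_ne_of_ne]

omit [DecidableEq ι] in
/-- The letters and their inverses. -/
def Let (ι : Type) : Set (FreeGroup ι) := Set.range of ∪ Set.range fun a => (of a)⁻¹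

omit [DecidableEq ι] in
lemma mem_stab [Finite ι] {g : MulAut (FreeGroup ι)} (h : ∀ a, ∃ b, g (of a) = of b ∨
    g (of a) = (of b)⁻¹) : g ∈ MulAction.stabilizer (MulAut (FreeGroup ι)) (Let ι) := by
  refine (MulAction.mem_stabilizer_set_iff_smul_set_subset
    ((Set.finite_range _).union (Set.finite_range _))).2 ?_
  rintro _ ⟨_, ⟨a, rfl⟩ | ⟨a, rfl⟩, rfl⟩ <;> obtain ⟨b, e | e⟩ := h a
  · exact Or.inl ⟨b, e.symm⟩
  · exact Or.inr ⟨b, e.symm⟩
  · exact Or.inr ⟨b, by simp [e]⟩
  · exact Or.inl ⟨b, by simp [e]⟩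

instance [Finite ι] : Finite (MulAction.stabilizer (MulAut (FreeGroup ι)) (Let ι)) := by
  have : Finite (Let ι) := ((Set.finite_range _).union (Set.finite_range _)).to_subtype
  exact Finite.of_injective (β := ι → Let ι) (fun g a => ⟨g.1 (of a),
    (MulAction.mem_stabilizer_set.1 g.2 _).2 (Or.inl ⟨a, rfl⟩)⟩) fun g g' e =>
    Subtype.ext (aut_ext fun a => congrArg Subtype.val (congrFun e a))

/-- The signed permutations. -/
def w0 (ι : Type) [DecidableEq ι] [Finite ι] :
    WS ι (MulAction.stabilizer (MulAut (FreeGroup ι)) (Let ι)) where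
  ε a := ⟨ep a, mem_stab fun c => ⟨c, by by_cases h : c = a <;> simp [ep_of, h]⟩⟩
  π := pm.codRestrict _ fun σ => mem_stab fun c => ⟨σ c, Or.inl (pm_of σ c)⟩
  ε_sq a := Subtype.ext ((N0 ι).ε_sq a)
  ε_comm a b := Subtype.ext ((N0 ι).ε_comm a b)
  π_ε σ a := Subtype.ext ((N0 ι).π_ε σ a)

variable {A B : Type}

def z : Option A → FreeGroup (A ⊕ B) := fun o => o.elim 1 fun a => of (inl a)

variable (c : B → Prop) [DecidablePred c]

/-- The substitution of the cage group. -/
def kE (s : Perm (Option A)) : FreeGroup (A ⊕ B) →* FreeGroup (A ⊕ B) :=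
  lift (Sum.elim (fun a => z (s (some a)) * (z (s none))⁻¹) fun b =>
    if c b then z (s none) * of (inr b) * (z (s none))⁻¹ else of (inr b))

lemma kE_z (s : Perm (Option A)) (o : Option A) : kE c s (z o) = z (s o) * (z (s none))⁻¹ := by
  cases o <;> simp [kE, z]

lemma kE_inr (s : Perm (Option A)) (b : B) : kE c s (of (inr b)) =
    if c b then z (s none) * of (inr b) * (z (s none))⁻¹ else of (inr b) := by simp [kE]

lemma kE_mul (s t : Perm (Option A)) : (kE c s).comp (kE c t) = kE c (s * t) :=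
  FreeGroup.ext_hom _ _ (by
    rintro (a | b)
    · change kE c s (kE c t (z (some a))) = kE c (s * t) (z (some a))
      simp [kE_z]
    · by_cases h : c b <;> simp [kE_inr, kE_z, h, mul_assoc])

lemma kE_one : kE (A := A) c 1 = MonoidHom.id _ :=
  FreeGroup.ext_hom _ _ (by rintro (a | b) <;> simp [kE, z])

def kA : Perm (Option A) →* MulAut (FreeGroup (A ⊕ B)) where
  toFun s := MonoidHom.toMulEquiv (kE c s) (kE c s⁻¹) (by rw [kE_mul, inv_mul_cancel, kE_one])
    (by rw [kE_mul, mul_inv_cancel, kE_one])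
  map_one' := MulEquiv.toMonoidHom_injective (kE_one c)
  map_mul' s t := MulEquiv.toMonoidHom_injective (kE_mul c s t).symm

lemma kA_apply (s : Perm (Option A)) (x) : kA c s x = kE c s x := rfl

lemma xi_map {W W' : Type} [Fintype A] [Group W] [Group W'] (P : WS (A ⊕ B) W) (f : W →* W')
    (τ : Perm B) : xi (P.map f) τ = f (xi P τ) := by
  simp [xi, WS.map, map_list_prod, Function.comp_def]

lemma prod_ep (L : List ι) (h : L.Nodup) (x : ι) :
    (L.map ep).prod (of x) = if x ∈ L then (of x)⁻¹ else of x := by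
  induction L generalizing x with
  | nil => simp
  | cons a L ih =>
    rw [List.nodup_cons] at h
    by_cases k : x = a
    · simp [ih h.2, k, h.1, ep_of]
    · by_cases l : x ∈ L <;> simp [ih h.2, k, l, ep_of]

variable [Fintype A] [DecidableEq A] [DecidableEq B] (τ : Perm B)

lemma xi_of (x : A ⊕ B) : xi (N0 (A ⊕ B)).toWS τ (of x) =
    Sum.elim (fun a => (of (inl a))⁻¹) (fun b => of (inr (τ b))) x := by
  have := prod_ep ((Finset.univ : Finset A).toList.map (inl : A → A ⊕ B))
    ((Finset.nodup_toList _).map inl_injective)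
  rw [List.map_map] at this
  change (List.map (ep ∘ inl) _).prod (pm _ _) = _
  rw [pm_of, this]
  cases x <;> simp

lemma xi_z (o : Option A) : xi (N0 (A ⊕ B)).toWS τ (z o) = (z o)⁻¹ := by
  cases o <;> simp [z, xi_of]

lemma xi_kA (h : ∀ b, c (τ b) ↔ ¬c b) (s : Perm (Option A)) : xi (N0 (A ⊕ B)).toWS τ * kA c s =
    MulAut.conj (z (s none))⁻¹ * (kA c s * xi (N0 (A ⊕ B)).toWS τ) := aut_ext (by
  rintro (a | b)
  · have := kE_z c s (some a)
    change kE c s (of (inl a)) = _ at this
    simp [kA_apply, xi_of, this, xi_z]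
  · by_cases k : c b <;> simp [kA_apply, xi_of, kE_inr, xi_z, h, k, mul_assoc])

end Inst

open Inst in
theorem sinst : SInst := by
  intro A B _ _ _ _ τ n hs hn
  let φ : FreeGroup (A ⊕ B) ≃* FG n := freeGroupCongr (Fintype.equivFinOfCardEq hn)
  let Φ : MulAut (FreeGroup (A ⊕ B)) →* Out (FG n) :=
    (QuotientGroup.mk' (Inn (FG n))).comp (MulAut.congr φ).toMonoidHom
  have hΦ : ∀ g, Φ g = 1 ↔ ∃ u, MulAut.conj u = g := fun g => by
    refine (QuotientGroup.eq_one_iff _).trans ⟨fun ⟨x, hx⟩ => ⟨φ.symm x, ?_⟩, ?_⟩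
    · ext y
      have := congrArg φ.symm (DFunLike.congr_fun hx (φ y))
      simpa using this
    · rintro ⟨u, rfl⟩
      exact ⟨φ u, by ext y; simp⟩
  obtain ⟨c, _, h1, h2⟩ : ∃ (c : B → Prop) (_ : DecidablePred c), (∀ b, c (τ b) ↔ ¬c b) ∧
      ∀ b, τ (τ b) = b := by
    rcases hs with ⟨h, -⟩ | ⟨y, y', h1, h2, rfl, -⟩
    · exact ⟨fun _ => True, inferInstance, isEmptyElim, isEmptyElim⟩
    · refine ⟨(· = y'), inferInstance, fun b => ?_, by simp⟩
      rcases h2 b with rfl | rfl <;> simp [h1]
  refine ⟨(N0 _).map Φ, _, inferInstance, inferInstance, w0 _, Φ.comp (Subgroup.subtype _),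
    Φ.comp (kA c), fun _ => rfl, fun _ => rfl, fun σ => congrArg Φ (aut_ext ?_), fun σ => ?_,
    Subtype.ext ?_, fun a b hab e => ?_⟩
  · rintro (a | b) <;> simp [kA_apply, kE, z, N0]
  · change xi ((N0 _).toWS.map Φ) τ * Φ _ = Φ _ * xi ((N0 _).toWS.map Φ) τ
    rw [xi_map, ← Φ.map_mul, xi_kA c τ h1, Φ.map_mul, (hΦ _).2 ⟨_, rfl⟩, one_mul, Φ.map_mul]
  · have : (xi (w0 (A ⊕ B)) τ).1 = xi (N0 (A ⊕ B)).toWS τ :=
      (xi_map (w0 _) (Subgroup.subtype _) τ).symm
    rw [Subgroup.coe_mul, this]
    refine aut_ext ?_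
    rintro (a | b) <;> simp [xi_of, h2]
  · obtain ⟨u, hu⟩ := (hΦ _).1 ((map_mul Φ (ep a) (ep b)).trans e)
    have := congrArg (lift fun _ => Multiplicative.ofAdd (1 : ℤ)) (DFunLike.congr_fun hu (of a))
    simp [ep_of, hab] at this
    exact absurd (congrArg Multiplicative.toAdd this) (by simp)

end Pool.Agent.MP_3ce0a0_al.H62
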