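import Pool.Agent.MP_3ce0a0_al.H79.XS

namespace Pool.Agent.MP_3ce0a0_al.H62.XNum

open Pool.Agent.MP_3ce0a0_al.H79.X Nat

theorem cb_sq (k : ℕ) (hk : 1 ≤ k) : 16 ^ k ≤ (centralBinom k) ^ 2 * (4 * k) := by
  induction k, hk using Nat.le_induction with
  | base => decide
  | succ k hk ih =>
    have h := succ_mul_centralBinom_succ k
    have h2 : (k + 1) * (centralBinom (k + 1) ^ 2 * (4 * (k + 1))) =
        16 * (2 * k + 1) ^ 2 * centralBinom k ^ 2 := by
      have : (k + 1) * (centralBinom (k + 1) ^ 2 * (4 * (k + 1))) =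
          4 * ((k + 1) * centralBinom (k + 1)) ^ 2 := by ring
      rw [this, h]; ring
    apply Nat.le_of_mul_le_mul_left _ (Nat.succ_pos k)
    change (k + 1) * 16 ^ (k + 1) ≤ (k + 1) * _
    rw [h2]
    calc (k + 1) * 16 ^ (k + 1) = 16 * (k + 1) * 16 ^ k := by ring
      _ ≤ 16 * (k + 1) * (centralBinom k ^ 2 * (4 * k)) := Nat.mul_le_mul_left _ ih
      _ = 16 * (4 * k * (k + 1)) * centralBinom k ^ 2 := by ring
      _ ≤ 16 * (2 * k + 1) ^ 2 * centralBinom k ^ 2 := by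
        apply Nat.mul_le_mul_right; apply Nat.mul_le_mul_left; nlinarith

theorem mid_sq (n : ℕ) (hn : 2 ≤ n) : 4 ^ n ≤ (n.choose (n / 2)) ^ 2 * (8 * n) := by
  set k := n / 2 with hk
  have h1 : 1 ≤ k := by omega
  have h2 : centralBinom k ≤ n.choose k := by
    rw [centralBinom_eq_two_mul_choose]; exact Nat.choose_le_choose k (by omega)
  have h3 : 4 ^ n ≤ 4 * 16 ^ k := by
    have : (4 : ℕ) * 16 ^ k = 4 ^ (2 * k + 1) := by
      rw [pow_succ, pow_mul]; norm_num [mul_comm]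
    rw [this]; exact Nat.pow_le_pow_right (by norm_num) (by omega)
  calc 4 ^ n ≤ 4 * 16 ^ k := h3
    _ ≤ 4 * (centralBinom k ^ 2 * (4 * k)) := Nat.mul_le_mul_left _ (cb_sq k h1)
    _ = centralBinom k ^ 2 * (8 * (2 * k)) := by ring
    _ ≤ (n.choose k) ^ 2 * (8 * n) :=
      Nat.mul_le_mul (Nat.pow_le_pow_left h2 2) (Nat.mul_le_mul_left _ (by omega))

theorem step (n w d : ℕ) (h : n ≤ 3 * w + 2) : n.choose (w + d) ≤ 2 ^ d * n.choose w := by
  induction d with
  | zero => simp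
  | succ d ih =>
    have h1 := Nat.choose_succ_right_eq n (w + d)
    have h2 : n.choose (w + d + 1) ≤ 2 * n.choose (w + d) := by
      apply Nat.le_of_mul_le_mul_right _ (Nat.succ_pos (w + d))
      change n.choose (w + d + 1) * (w + d + 1) ≤ 2 * n.choose (w + d) * (w + d + 1)
      rw [h1]
      calc n.choose (w + d) * (n - (w + d)) ≤ n.choose (w + d) * (2 * (w + d + 1)) :=
            Nat.mul_le_mul_left _ (by omega)
        _ = _ := by ring
    calc n.choose (w + (d + 1)) = n.choose (w + d + 1) := rfl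
      _ ≤ 2 * n.choose (w + d) := h2
      _ ≤ 2 * (2 ^ d * n.choose w) := Nat.mul_le_mul_left _ ih
      _ = _ := by ring

theorem sbin_low (K L n w : ℕ) (hn : 3 * L + 2 + 8 * K ^ 2 * 4 ^ L ≤ n) (h1 : n ≤ 2 * w + L)
    (h2 : 2 * w ≤ n) : K * 2 ^ n ≤ n * n.choose w := by
  have hw : n / 2 = w + (n / 2 - w) := by omega
  have hd : n / 2 - w ≤ L := by omega
  have hs : n.choose (n / 2) ≤ 2 ^ L * n.choose w := by
    rw [hw]
    exact (step n w _ (by omega)).trans
      (Nat.mul_le_mul_right _ (Nat.pow_le_pow_right (by norm_num) hd))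
  have hm := mid_sq n (by omega)
  have hn0 : 0 < n := by omega
  have e4 : (4 : ℕ) ^ n = (2 ^ n) ^ 2 := by rw [← pow_mul, mul_comm, pow_mul]; norm_num
  have e5 : (4 : ℕ) ^ L = (2 ^ L) ^ 2 := by rw [← pow_mul, mul_comm, pow_mul]; norm_num
  have key : (K * 2 ^ n) ^ 2 ≤ (n * n.choose w) ^ 2 := by
    calc (K * 2 ^ n) ^ 2 = K ^ 2 * 4 ^ n := by rw [e4]; ring
      _ ≤ K ^ 2 * ((n.choose (n / 2)) ^ 2 * (8 * n)) := Nat.mul_le_mul_left _ hm
      _ ≤ K ^ 2 * ((2 ^ L * n.choose w) ^ 2 * (8 * n)) :=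
        Nat.mul_le_mul_left _ (Nat.mul_le_mul_right _ (Nat.pow_le_pow_left hs 2))
      _ = (8 * K ^ 2 * 4 ^ L) * (n * (n.choose w) ^ 2) := by rw [e5]; ring
      _ ≤ n * (n * (n.choose w) ^ 2) := Nat.mul_le_mul_right _ (by omega)
      _ = _ := by ring
  exact (Nat.pow_le_pow_iff_left (by norm_num)).1 key

theorem sbin : SBin := by
  intro K L
  refine ⟨3 * L + 2 + 8 * K ^ 2 * 4 ^ L, fun n w hn h1 h2 => ?_⟩
  by_cases h : 2 * w ≤ n
  · exact sbin_low K L n w hn h1 h
  · have hwn : w ≤ n := by omega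
    rw [← Nat.choose_symm hwn]
    exact sbin_low K L n (n - w) hn (by omega) (by omega)

theorem shift (x y t : ℕ) (h : y ≤ x + t) : x ! * (y + t)! ≤ (x + t)! * y ! ∨ x < y + t := by
  by_cases hx : x < y + t
  · exact Or.inr hx
  · left
    clear h
    induction t generalizing x with
    | zero => simp
    | succ t ih =>
      have h1 := ih (x + 1) (by omega)
      have e1 : (y + (t + 1))! = (y + t + 1) * (y + t)! := rfl
      have e2 : x + (t + 1) = x + 1 + t := by omega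
      rw [e1, e2]
      refine le_trans ?_ h1
      rw [Nat.factorial_succ]
      calc x ! * ((y + t + 1) * (y + t)!) = (y + t + 1) * x ! * (y + t)! := by ring
        _ ≤ (x + 1) * x ! * (y + t)! :=
          Nat.mul_le_mul_right _ (Nat.mul_le_mul_right _ (by omega))

theorem shift' (x y x' y' : ℕ) (h1 : y ≤ x) (h2 : y' ≤ y) (h3 : x + y = x' + y') :
    x ! * y ! ≤ x' ! * y' ! := by
  obtain ⟨t, rfl⟩ := Nat.exists_eq_add_of_le h2
  have hx : x' = x + t := by omega
  subst hx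
  rcases shift x y' t (by omega) with h | h
  · exact h
  · omega

theorem spread (N M a b c : ℕ) (hs : a + b + c = N) (hab : b ≤ a) (hbc : c ≤ b) (hc : 3 ≤ c)
    (ha : a ≤ M) (hM : M + 3 ≤ N) : a ! * b ! * c ! ≤ M ! * (N - M - 3)! * 3 ! := by
  by_cases h : M - a ≤ c - 3
  · have h1 := shift' a c M (c - (M - a)) (by omega) (by omega) (by omega)
    have h2 := shift' b (c - (M - a)) (N - M - 3) 3 (by omega) (by omega) (by omega)
    calc a ! * b ! * c ! = (a ! * c !) * b ! := by ring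
      _ ≤ (M ! * (c - (M - a))!) * b ! := Nat.mul_le_mul_right _ h1
      _ = M ! * (b ! * (c - (M - a))!) := by ring
      _ ≤ M ! * ((N - M - 3)! * 3 !) := Nat.mul_le_mul_left _ h2
      _ = _ := by ring
  · have h1 := shift' a c (a + c - 3) 3 (by omega) (by omega) (by omega)
    have h2 := shift' (a + c - 3) b M (N - M - 3) (by omega) (by omega) (by omega)
    calc a ! * b ! * c ! = (a ! * c !) * b ! := by ring
      _ ≤ ((a + c - 3)! * 3 !) * b ! := Nat.mul_le_mul_right _ h1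
      _ = ((a + c - 3)! * b !) * 3 ! := by ring
      _ ≤ (M ! * (N - M - 3)!) * 3 ! := Nat.mul_le_mul_right _ h2

theorem spread' (N M a b c : ℕ) (hs : a + b + c = N) (h1 : 3 ≤ a) (h2 : 3 ≤ b) (h3 : 3 ≤ c)
    (ha : a ≤ M) (hb : b ≤ M) (hc : c ≤ M) (hM : M + 3 ≤ N) :
    a ! * b ! * c ! ≤ M ! * (N - M - 3)! * 3 ! := by
  rcases le_total a b with p | p <;> rcases le_total b c with q | q <;>
    rcases le_total a c with r | r
  · have := spread N M c b a (by omega) q p h1 hc hM; linarith [mul_comm (a ! * b !) c !, mul_comm a ! b !, mul_assoc c ! b ! a !]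
  · have := spread N M c b a (by omega) q p h1 hc hM; linarith [mul_comm (a ! * b !) c !, mul_comm a ! b !, mul_assoc c ! b ! a !]
  · have := spread N M b c a (by omega) q r h1 hb hM
    calc _ = b ! * c ! * a ! := by ring
      _ ≤ _ := this
  · have := spread N M b a c (by omega) p r h3 hb hM
    calc _ = b ! * a ! * c ! := by ring
      _ ≤ _ := this
  · have := spread N M c a b (by omega) r p h2 hc hM
    calc _ = c ! * a ! * b ! := by ring
      _ ≤ _ := this
  · have := spread N M a c b (by omega) r q h2 ha hM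
    calc _ = a ! * c ! * b ! := by ring
      _ ≤ _ := this
  · exact spread N M a b c hs p q h3 ha hM
  · exact spread N M a b c hs p q h3 ha hM

theorem choose3 (r : ℕ) : 6 * (r + 2).choose 3 = (r + 2) * (r + 1) * r := by
  induction r with
  | zero => decide
  | succ r ih =>
    have e : (r + 1 + 2).choose 3 = (r + 2).choose 2 + (r + 2).choose 3 := rfl
    have e2 : 2 * (r + 2).choose 2 = (r + 2) * (r + 1) := by
      have := Nat.choose_succ_right_eq (r + 2) 1
      simp only [Nat.choose_one_right] at this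
      have e3 : r + 2 - 1 = r + 1 := by omega
      rw [e3] at this
      linarith
    rw [e]; nlinarith

theorem part1 (C : ℕ) : ∃ N₀, ∀ N : ℕ, N₀ ≤ N →
    C * N * 2 ^ N * ((N / 2 + 10)! * (N - (N / 2 + 10) - 3)! * 3 !) < N ! := by
  obtain ⟨n₀, h0⟩ := sbin 1 21
  refine ⟨n₀ + 100 + 384 * C, fun N hN => ?_⟩
  set M := N / 2 + 10 with hM
  have hb := h0 N M (by omega) (by omega) (by omega)
  rw [one_mul] at hb
  have f1 := Nat.choose_mul_factorial_mul_factorial (show M ≤ N by omega)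
  have f2 := Nat.choose_mul_factorial_mul_factorial (show 3 ≤ N - M by omega)
  obtain ⟨r, hr⟩ : ∃ r, N - M = r + 2 := ⟨N - M - 2, by omega⟩
  have h3 := choose3 r
  have h4 : N ≤ 4 * r := by omega
  have h5 : C * N * N < (N - M).choose 3 := by
    rw [hr]
    have a1 : N ^ 3 ≤ (4 * r) ^ 3 := Nat.pow_le_pow_left h4 3
    have a2 : r ^ 3 ≤ (r + 2) * (r + 1) * r := by nlinarith
    have a3 : 384 * C * (N * N) < N * (N * N) :=
      Nat.mul_lt_mul_of_pos_right (by omega) (Nat.mul_pos (by omega) (by omega))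
    nlinarith
  have h6 : C * N * 2 ^ N < N.choose M * (N - M).choose 3 := by
    have hc : 0 < N.choose M := Nat.choose_pos (by omega)
    calc C * N * 2 ^ N ≤ C * N * (N * N.choose M) := Nat.mul_le_mul_left _ hb
      _ = N.choose M * (C * N * N) := by ring
      _ < _ := Nat.mul_lt_mul_of_pos_left h5 hc
  have hp : 0 < M ! * (N - M - 3)! * 3 ! := by positivity
  calc _ < N.choose M * (N - M).choose 3 * (M ! * (N - M - 3)! * 3 !) :=
        Nat.mul_lt_mul_of_pos_right h6 hp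
    _ = N.choose M * M ! * ((N - M).choose 3 * 3 ! * (N - M - 3)!) := by ring
    _ = N ! := by rw [f2, f1]

theorem up (N j d : ℕ) (h : 3 * (j + d) ≤ 2 * N + 2) :
    2 ^ j * N.choose j ≤ 2 ^ (j + d) * N.choose (j + d) := by
  induction d with
  | zero => simp
  | succ d ih =>
    refine (ih (by omega)).trans ?_
    have h1 := Nat.choose_succ_right_eq N (j + d)
    apply Nat.le_of_mul_le_mul_right _ (Nat.succ_pos (j + d))
    change _ * (j + d + 1) ≤ 2 ^ (j + d + 1) * N.choose (j + d + 1) * (j + d + 1)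
    rw [mul_assoc (2 ^ (j + d + 1)), h1]
    calc 2 ^ (j + d) * N.choose (j + d) * (j + d + 1)
        ≤ 2 ^ (j + d) * N.choose (j + d) * (2 * (N - (j + d))) := Nat.mul_le_mul_left _ (by omega)
      _ = _ := by ring

theorem down (N j d : ℕ) (h : 2 * N ≤ 3 * j + 1) :
    2 ^ (j + d) * N.choose (j + d) ≤ 2 ^ j * N.choose j := by
  induction d with
  | zero => simp
  | succ d ih =>
    refine le_trans ?_ ih
    have h1 := Nat.choose_succ_right_eq N (j + d)
    apply Nat.le_of_mul_le_mul_right _ (Nat.succ_pos (j + d))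
    change 2 ^ (j + d + 1) * N.choose (j + d + 1) * (j + d + 1) ≤ _ * (j + d + 1)
    rw [mul_assoc (2 ^ (j + d + 1)), h1]
    calc 2 ^ (j + d + 1) * (N.choose (j + d) * (N - (j + d)))
        = 2 ^ (j + d) * N.choose (j + d) * (2 * (N - (j + d))) := by ring
      _ ≤ 2 ^ (j + d) * N.choose (j + d) * (j + d + 1) := Nat.mul_le_mul_left _ (by omega)

theorem q_succ (m : ℕ) :
    (4 * (m + 1)).choose (m + 1) * ((m + 1) * ((3 * m + 3) * (3 * m + 2) * (3 * m + 1))) =
      (4 * m).choose m * ((4 * m + 4) * (4 * m + 3) * (4 * m + 2) * (4 * m + 1)) := by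
  have f1 := Nat.choose_mul_factorial_mul_factorial (show m ≤ 4 * m by omega)
  have f2 := Nat.choose_mul_factorial_mul_factorial (show m + 1 ≤ 4 * (m + 1) by omega)
  have e1 : 4 * m - m = 3 * m := by omega
  have e2 : 4 * (m + 1) - (m + 1) = 3 * m + 1 + 1 + 1 := by omega
  have e3 : (4 * (m + 1))! = (4 * m + 1 + 1 + 1 + 1)! := by congr 1
  rw [e1] at f1
  rw [e2, e3] at f2
  simp only [Nat.factorial_succ] at f2
  have hp : 0 < m ! * (3 * m)! := by positivity
  apply Nat.eq_of_mul_eq_mul_right hp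
  rw [← f1] at f2
  calc _ = (4 * (m + 1)).choose (m + 1) * ((m + 1) * m !) *
        ((3 * m + 1 + 1 + 1) * ((3 * m + 1 + 1) * ((3 * m + 1) * (3 * m)!))) := by ring
    _ = _ := f2
    _ = _ := by ring

theorem q_low (m : ℕ) (hm : 9 ≤ m) : 9 ^ m ≤ 9 ^ 9 * (4 * m).choose m := by
  induction m, hm using Nat.le_induction with
  | base =>
    have : 0 < (4 * 9).choose 9 := Nat.choose_pos (by norm_num)
    exact Nat.le_mul_of_pos_right _ this
  | succ m hm ih =>
    have h1 : 9 * (4 * m).choose m ≤ (4 * (m + 1)).choose (m + 1) := by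
      have hp : 0 < (m + 1) * ((3 * m + 3) * (3 * m + 2) * (3 * m + 1)) := by positivity
      apply Nat.le_of_mul_le_mul_right _ hp
      rw [q_succ]
      obtain ⟨s, rfl⟩ := Nat.exists_eq_add_of_le hm
      have : 9 * ((3 * (9 + s) + 3) * (3 * (9 + s) + 2) * (3 * (9 + s) + 1)) ≤
          4 * ((4 * (9 + s) + 3) * (4 * (9 + s) + 2) * (4 * (9 + s) + 1)) := by
        ring_nf; nlinarith [Nat.zero_le (s ^ 3), Nat.zero_le (s ^ 2)]
      calc _ = (4 * (9 + s)).choose (9 + s) * (9 + s + 1) *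
            (9 * ((3 * (9 + s) + 3) * (3 * (9 + s) + 2) * (3 * (9 + s) + 1))) := by ring
        _ ≤ (4 * (9 + s)).choose (9 + s) * (9 + s + 1) *
            (4 * ((4 * (9 + s) + 3) * (4 * (9 + s) + 2) * (4 * (9 + s) + 1))) :=
          Nat.mul_le_mul_left _ this
        _ = _ := by ring
    calc 9 ^ (m + 1) = 9 * 9 ^ m := by ring
      _ ≤ 9 * (9 ^ 9 * (4 * m).choose m) := Nat.mul_le_mul_left _ ih
      _ = 9 ^ 9 * (9 * (4 * m).choose m) := by ring
      _ ≤ _ := Nat.mul_le_mul_left _ h1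

theorem e89 (m : ℕ) (hm : 16 ≤ m) : (m + 1) ^ 2 * 8 ^ m ≤ 17 ^ 2 * 9 ^ m := by
  induction m, hm using Nat.le_induction with
  | base => norm_num
  | succ m hm ih =>
    have h1 : 8 * (m + 1 + 1) ^ 2 ≤ 9 * (m + 1) ^ 2 := by nlinarith
    calc (m + 1 + 1) ^ 2 * 8 ^ (m + 1) = 8 * (m + 1 + 1) ^ 2 * 8 ^ m := by ring
      _ ≤ 9 * (m + 1) ^ 2 * 8 ^ m := Nat.mul_le_mul_right _ h1
      _ = 9 * ((m + 1) ^ 2 * 8 ^ m) := by ring
      _ ≤ 9 * (17 ^ 2 * 9 ^ m) := Nat.mul_le_mul_left _ ih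
      _ = _ := by ring

theorem quarter (C m N : ℕ) (hm : 16 + 17 ^ 2 * (9 ^ 9 * 32 * C) ≤ m) (h1 : 4 * m + 1 ≤ N)
    (h2 : N ≤ 4 * (m + 1)) : C * N * 2 ^ N < 2 ^ (m + 1) * N.choose (m + 1) := by
  have a1 : (4 * m).choose m ≤ N.choose (m + 1) := by
    refine le_trans ?_ (Nat.choose_le_choose (m + 1) h1)
    rw [Nat.choose_succ_succ]; omega
  have a2 := q_low m (by omega)
  have a3 := e89 m (by omega)
  have a4 : 9 ^ 9 * 32 * C * (m + 1) * 8 ^ m < 9 ^ m := by
    apply Nat.lt_of_mul_lt_mul_left (a := m + 1)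
    calc (m + 1) * (9 ^ 9 * 32 * C * (m + 1) * 8 ^ m)
        = (9 ^ 9 * 32 * C) * ((m + 1) ^ 2 * 8 ^ m) := by ring
      _ ≤ (9 ^ 9 * 32 * C) * (17 ^ 2 * 9 ^ m) := Nat.mul_le_mul_left _ a3
      _ = (17 ^ 2 * (9 ^ 9 * 32 * C)) * 9 ^ m := by ring
      _ < (m + 1) * 9 ^ m := Nat.mul_lt_mul_of_pos_right (by omega) (by positivity)
  have a5 : 32 * C * (m + 1) * 8 ^ m < (4 * m).choose m := by
    apply Nat.lt_of_mul_lt_mul_left (a := 9 ^ 9)
    calc 9 ^ 9 * (32 * C * (m + 1) * 8 ^ m) = 9 ^ 9 * 32 * C * (m + 1) * 8 ^ m := by ring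
      _ < 9 ^ m := a4
      _ ≤ _ := a2
  have a6 : 2 ^ N ≤ 2 ^ (m + 1) * (8 * 8 ^ m) := by
    have : (2 : ℕ) ^ (m + 1) * (8 * 8 ^ m) = 2 ^ (4 * (m + 1)) := by
      have e : (8 : ℕ) ^ m = 2 ^ (3 * m) := by rw [pow_mul]; norm_num
      rw [e]; ring
    rw [this]; exact Nat.pow_le_pow_right (by norm_num) h2
  calc C * N * 2 ^ N ≤ C * (4 * (m + 1)) * (2 ^ (m + 1) * (8 * 8 ^ m)) :=
        Nat.mul_le_mul (Nat.mul_le_mul_left _ h2) a6
    _ = 2 ^ (m + 1) * (32 * C * (m + 1) * 8 ^ m) := by ring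
    _ < 2 ^ (m + 1) * N.choose (m + 1) :=
      Nat.mul_lt_mul_of_pos_left (lt_of_lt_of_le a5 a1) (by positivity)

theorem top (C r : ℕ) (h : 8 * C ≤ r) : C * (r + 2) * 2 ^ (r + 2) < 2 ^ r * (r + 2).choose r := by
  have e1 : (r + 2).choose r = (r + 2).choose 2 := by
    have := Nat.choose_symm (show 2 ≤ r + 2 by omega)
    simpa using this
  have e2 : 2 * (r + 2).choose 2 = (r + 2) * (r + 1) := by
    have := Nat.choose_succ_right_eq (r + 2) 1
    simp only [Nat.choose_one_right] at this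
    have e3 : r + 2 - 1 = r + 1 := by omega
    rw [e3] at this
    linarith
  rw [e1]
  have a1 : 4 * C * (r + 2) < (r + 2).choose 2 := by
    have : (r + 2) * (8 * C) < (r + 2) * (r + 1) := Nat.mul_lt_mul_of_pos_left (by omega) (by omega)
    nlinarith
  calc C * (r + 2) * 2 ^ (r + 2) = 2 ^ r * (4 * C * (r + 2)) := by ring
    _ < _ := Nat.mul_lt_mul_of_pos_left a1 (by positivity)

theorem snum : H79.X.SNum := by
  intro C
  obtain ⟨N₁, h1⟩ := part1 C
  refine ⟨N₁ + 100 + 8 * C + 4 * (16 + 17 ^ 2 * (9 ^ 9 * 32 * C)), fun N hN => ⟨?_, ?_⟩⟩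
  · intro a b c hs a3 b3 c3 ha hb hc
    refine lt_of_le_of_lt ?_ (h1 N (by omega))
    exact Nat.mul_le_mul_left _ (spread' N _ a b c hs a3 b3 c3 ha hb hc (by omega))
  · intro j hj1 hj2
    by_cases h : 3 * j ≤ 2 * N + 2
    · obtain ⟨m, hm1, hm2⟩ : ∃ m, 4 * m + 1 ≤ N ∧ N ≤ 4 * (m + 1) := ⟨(N - 1) / 4, by omega, by omega⟩
      have hq := quarter C m N (by omega) hm1 hm2
      obtain ⟨d, rfl⟩ : ∃ d, j = m + 1 + d := ⟨j - (m + 1), by omega⟩
      exact lt_of_lt_of_le hq (up N (m + 1) d h)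
    · obtain ⟨r, rfl⟩ : ∃ r, N = r + 2 := ⟨N - 2, by omega⟩
      have ht := top C r (by omega)
      obtain ⟨d, hd⟩ : ∃ d, r = j + d := ⟨r - j, by omega⟩
      refine lt_of_lt_of_le ht ?_
      have := down (r + 2) j d (by omega)
      rw [← hd] at this
      exact this

end Pool.Agent.MP_3ce0a0_al.H62.XNum
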